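import Mathlib

/-!
# Sums of four pentagonal-type numbers: the range `52 ≤ n ≤ 200000`

`Rep n`: `2 n = w(5w-1) + x(5x-1) + y(5y+1) + z(5z+1)` with natural numbers `w, x, y, z`.
The range is checked by the kernel with bit masks.
-/

set_option autoImplicit false

namespace Pool.Agent.J4.H20.PT

/-- `2 n = w(5w-1) + x(5x-1) + y(5y+1) + z(5z+1)` for some natural numbers `w, x, y, z`. -/
def Rep (n : ℕ) : Prop :=
  ∃ w x y z : ℕ, 2 * (n : ℤ) =
    (w : ℤ) * (5 * w - 1) + (x : ℤ) * (5 * x - 1) + (y : ℤ) * (5 * y + 1) + (z : ℤ) * (5 * z + 1)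

/-- the `OR` of the shifts of `m` by the entries of `l` -/
def sh (l : List ℕ) (m : ℕ) : ℕ := l.foldr (fun s acc => (m <<< s) ||| acc) 0

lemma testBit_sh (l : List ℕ) (m k : ℕ) (h : (sh l m).testBit k = true) :
    ∃ s ∈ l, s ≤ k ∧ m.testBit (k - s) = true := by
  induction l with
  | nil => simp [sh] at h
  | cons a l ih =>
    have h2 : sh (a :: l) m = (m <<< a) ||| sh l m := rfl
    rw [h2, Nat.testBit_or, Bool.or_eq_true] at h
    rcases h with h | h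
    · rw [Nat.testBit_shiftLeft] at h
      simp only [ge_iff_le, Bool.and_eq_true, decide_eq_true_eq] at h
      exact ⟨a, List.mem_cons_self, h.1, h.2⟩
    · obtain ⟨s, hs, h3, h4⟩ := ih h
      exact ⟨s, List.mem_cons_of_mem _ hs, h3, h4⟩

def lpos : List ℕ := (List.range 284).map fun y => y * (5 * y + 1) / 2
def lneg : List ℕ := (List.range 284).map fun y => y * (5 * y - 1) / 2

def M2 : ℕ := sh lpos (sh lpos 1)
def M4 : ℕ := sh lneg (sh lneg M2)

lemma M4_check : (M4 >>> 52) &&& (2 ^ 199949 - 1) = 2 ^ 199949 - 1 := by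
  decide +kernel

lemma mem_lpos (s : ℕ) (h : s ∈ lpos) : ∃ y : ℕ, 2 * (s : ℤ) = (y : ℤ) * (5 * y + 1) := by
  unfold lpos at h
  rw [List.mem_map] at h
  obtain ⟨y, _, rfl⟩ := h
  refine ⟨y, ?_⟩
  have h2 : 2 ∣ y * (5 * y + 1) := by
    rcases Nat.even_or_odd' y with ⟨c, rfl | rfl⟩
    · exact ⟨c * (5 * (2 * c) + 1), by ring⟩
    · exact ⟨(2 * c + 1) * (5 * c + 3), by ring⟩
  obtain ⟨c, hc⟩ := h2
  rw [hc, Nat.mul_div_cancel_left _ (by norm_num)]
  have := congrArg (Nat.cast : ℕ → ℤ) hc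
  push_cast at this ⊢
  rw [this]

lemma mem_lneg (s : ℕ) (h : s ∈ lneg) : ∃ y : ℕ, 2 * (s : ℤ) = (y : ℤ) * (5 * y - 1) := by
  unfold lneg at h
  rw [List.mem_map] at h
  obtain ⟨y, _, rfl⟩ := h
  refine ⟨y, ?_⟩
  rcases Nat.eq_zero_or_pos y with rfl | hy
  · simp
  have h2 : 2 ∣ y * (5 * y - 1) := by
    rcases Nat.even_or_odd' y with ⟨c, rfl | rfl⟩
    · exact ⟨c * (5 * (2 * c) - 1), by ring⟩
    · refine ⟨(2 * c + 1) * (5 * c + 2), ?_⟩
      have : 5 * (2 * c + 1) - 1 = 2 * (5 * c + 2) := by omega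
      rw [this]; ring
  obtain ⟨c, hc⟩ := h2
  rw [hc, Nat.mul_div_cancel_left _ (by norm_num)]
  have := congrArg (Nat.cast : ℕ → ℤ) hc
  push_cast [Nat.cast_sub (show 1 ≤ 5 * y by omega)] at this ⊢
  rw [this]

lemma testBit_one (k : ℕ) (h : (1 : ℕ).testBit k = true) : k = 0 := by
  by_contra hk
  obtain ⟨m, rfl⟩ : ∃ m, k = m + 1 := ⟨k - 1, by omega⟩
  rw [Nat.testBit_succ] at h
  simp at h

theorem rep_small (n : ℕ) (h1 : 51 < n) (h2 : n ≤ 200000) : Rep n := by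
  have h3 : M4.testBit n = true := by
    have h4 : ((M4 >>> 52) &&& (2 ^ 199949 - 1)).testBit (n - 52) = true := by
      rw [M4_check, Nat.testBit_two_pow_sub_one]
      simp only [decide_eq_true_eq]
      omega
    rw [Nat.testBit_and, Bool.and_eq_true, Nat.testBit_shiftRight] at h4
    have h5 : 52 + (n - 52) = n := by omega
    rw [h5] at h4
    exact h4.1
  obtain ⟨s1, hs1, h4, h3⟩ := testBit_sh _ _ _ h3
  obtain ⟨s2, hs2, h5, h3⟩ := testBit_sh _ _ _ h3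
  obtain ⟨s3, hs3, h6, h3⟩ := testBit_sh _ _ _ h3
  obtain ⟨s4, hs4, h7, h3⟩ := testBit_sh _ _ _ h3
  have h8 := testBit_one _ h3
  obtain ⟨w, hw⟩ := mem_lneg _ hs1
  obtain ⟨x, hx⟩ := mem_lneg _ hs2
  obtain ⟨y, hy⟩ := mem_lpos _ hs3
  obtain ⟨z, hz⟩ := mem_lpos _ hs4
  refine ⟨w, x, y, z, ?_⟩
  rw [← hw, ← hx, ← hy, ← hz]
  omega

end Pool.Agent.J4.H20.PT
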