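import Mathlib
import Pool.Agent.J4.H20.PT.Base
import Pool.Agent.H141R2.FS.Three

/-!
# Sums of four pentagonal-type numbers with prescribed signs

Tools: from four integers `u ≡ 1 mod 10` (or all `≡ 9 mod 10`), two positive and two negative, with
sum of squares `40 n + 4` to a representation of `n`; a sign criterion.
-/

set_option autoImplicit false

namespace Pool.Agent.J4.H20.PT

lemma rep_of_one (n : ℕ) (a b c d : ℤ) (h : a ^ 2 + b ^ 2 + c ^ 2 + d ^ 2 = 40 * n + 4)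
    (ha : a % 10 = 1) (hb : b % 10 = 1) (hc : c % 10 = 1) (hd : d % 10 = 1)
    (ha0 : 0 < a) (hb0 : 0 < b) (hc0 : c < 0) (hd0 : d < 0) : Rep n := by
  obtain ⟨y, hy⟩ : ∃ y : ℕ, a = 10 * y + 1 := ⟨((a - 1) / 10).toNat, by omega⟩
  obtain ⟨z, hz⟩ : ∃ z : ℕ, b = 10 * z + 1 := ⟨((b - 1) / 10).toNat, by omega⟩
  obtain ⟨w, hw⟩ : ∃ w : ℕ, c = 1 - 10 * w := ⟨((1 - c) / 10).toNat, by omega⟩
  obtain ⟨x, hx⟩ : ∃ x : ℕ, d = 1 - 10 * x := ⟨((1 - d) / 10).toNat, by omega⟩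
  subst hy hz hw hx
  refine ⟨w, x, y, z, ?_⟩
  nlinarith

lemma rep_of (n : ℕ) (a b c d : ℤ) (h : a ^ 2 + b ^ 2 + c ^ 2 + d ^ 2 = 40 * n + 4)
    (hm : (a % 10 = 1 ∧ b % 10 = 1 ∧ c % 10 = 1 ∧ d % 10 = 1) ∨
      (a % 10 = 9 ∧ b % 10 = 9 ∧ c % 10 = 9 ∧ d % 10 = 9))
    (ha0 : 0 < a) (hb0 : 0 < b) (hc0 : c < 0) (hd0 : d < 0) : Rep n := by
  rcases hm with ⟨h1, h2, h3, h4⟩ | ⟨h1, h2, h3, h4⟩
  · exact rep_of_one n a b c d h h1 h2 h3 h4 ha0 hb0 hc0 hd0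
  · exact rep_of_one n (-c) (-d) (-a) (-b) (by linarith [h, neg_sq a, neg_sq b, neg_sq c, neg_sq d])
      (by omega) (by omega) (by omega) (by omega) (by omega) (by omega) (by omega) (by omega)

/-- The sign criterion. -/
lemma sgn (p q r s a b c d N T : ℤ) (hp : 0 < p) (hT : 0 < T)
    (h : p * a + q * b + r * c + s * d = T) (hn : a ^ 2 + b ^ 2 + c ^ 2 + d ^ 2 = N)
    (hb : (q ^ 2 + r ^ 2 + s ^ 2) * N < T ^ 2) : 0 < a := by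
  by_contra ha
  push Not at ha
  have h1 : T ≤ q * b + r * c + s * d := by nlinarith
  have h2 : T ^ 2 ≤ (q * b + r * c + s * d) ^ 2 := pow_le_pow_left₀ hT.le h1 2
  have h3 : (q * b + r * c + s * d) ^ 2 ≤ (q ^ 2 + r ^ 2 + s ^ 2) * (b ^ 2 + c ^ 2 + d ^ 2) := by
    nlinarith [sq_nonneg (q * c - r * b), sq_nonneg (q * d - s * b), sq_nonneg (r * d - s * c)]
  have h4 : (q ^ 2 + r ^ 2 + s ^ 2) * (b ^ 2 + c ^ 2 + d ^ 2) ≤ (q ^ 2 + r ^ 2 + s ^ 2) * N := by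
    apply mul_le_mul_of_nonneg_left _ (by positivity)
    nlinarith [sq_nonneg a]
  linarith

/-- an integer in a residue class -/
lemma exists_class (lo r m : ℤ) (hm : 0 < m) : ∃ t : ℤ, lo ≤ t ∧ t < lo + m ∧ m ∣ t - r := by
  refine ⟨lo + (r - lo) % m, ?_, ?_, ?_⟩
  · have := Int.emod_nonneg (r - lo) hm.ne'
    linarith
  · have := Int.emod_lt_of_pos (r - lo) hm
    linarith
  · have h := Int.emod_add_mul_ediv (r - lo) m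
    refine ⟨-((r - lo) / m), ?_⟩
    linarith

lemma sq_mod4 (g : ℤ) : (g % 2 = 0 ∧ g ^ 2 % 4 = 0) ∨ (g % 2 = 1 ∧ g ^ 2 % 4 = 1) := by
  rcases Int.even_or_odd' g with ⟨k, rfl | rfl⟩
  · left
    refine ⟨by omega, ?_⟩
    have : (2 * k) ^ 2 = 4 * (k ^ 2) := by ring
    rw [this]; omega
  · right
    refine ⟨by omega, ?_⟩
    have : (2 * k + 1) ^ 2 = 4 * (k ^ 2 + k) + 1 := by ring
    rw [this]; omega

/-- odd squares mod 8 -/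
lemma sq_mod8 (g : ℤ) (h : g % 2 = 1) : g ^ 2 % 8 = 1 := by
  obtain ⟨k, hk⟩ : ∃ k, g = 2 * k + 1 := ⟨g / 2, by omega⟩
  subst hk
  rcases Int.even_or_odd' k with ⟨l, rfl | rfl⟩
  · have : (2 * (2 * l) + 1) ^ 2 = 8 * (2 * l ^ 2 + l) + 1 := by ring
    rw [this]; omega
  · have : (2 * (2 * l + 1) + 1) ^ 2 = 8 * (2 * l ^ 2 + 3 * l + 1) + 1 := by ring
    rw [this]; omega

lemma three_odd {D : ℤ} (h0 : 0 ≤ D) (h : D % 8 = 3) :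
    ∃ a b c : ℤ, a ^ 2 + b ^ 2 + c ^ 2 = D ∧ a % 2 = 1 ∧ b % 2 = 1 ∧ c % 2 = 1 := by
  obtain ⟨m, rfl⟩ : ∃ m : ℕ, D = m := ⟨D.toNat, by omega⟩
  obtain ⟨x, y, z, hx⟩ := Pool.Agent.H591R2.three_squares (m := m) (by omega)
  refine ⟨x, y, z, hx, ?_⟩
  have h1 := sq_mod4 x
  have h2 := sq_mod4 y
  have h3 := sq_mod4 z
  omega

lemma three_one {D : ℤ} (h0 : 0 ≤ D) (h : D % 4 = 1) :
    ∃ a b c : ℤ, a ^ 2 + b ^ 2 + c ^ 2 = D ∧ a % 2 = 0 ∧ b % 2 = 0 ∧ c % 2 = 1 := by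
  obtain ⟨m, rfl⟩ : ∃ m : ℕ, D = m := ⟨D.toNat, by omega⟩
  obtain ⟨x, y, z, hx⟩ := Pool.Agent.H141R2.FS.three_squares_one (m := m) (by omega)
  have h1 := sq_mod4 x
  have h2 := sq_mod4 y
  have h3 := sq_mod4 z
  have h4 : (x % 2 = 0 ∧ y % 2 = 0 ∧ z % 2 = 1) ∨ (x % 2 = 0 ∧ z % 2 = 0 ∧ y % 2 = 1) ∨
      (y % 2 = 0 ∧ z % 2 = 0 ∧ x % 2 = 1) := by omega
  rcases h4 with ⟨h4, h5, h6⟩ | ⟨h4, h5, h6⟩ | ⟨h4, h5, h6⟩
  · exact ⟨x, y, z, hx, h4, h5, h6⟩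
  · exact ⟨x, z, y, by linarith, h4, h5, h6⟩
  · exact ⟨y, z, x, by linarith, h4, h5, h6⟩

end Pool.Agent.J4.H20.PT
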