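import Mathlib
import Pool.Agent.J4.H20.PT.Core

/-!
# Case A: `40 n + 4 = 1 mod 3` or divisible by `9`
-/

set_option autoImplicit false

namespace Pool.Agent.J4.H20.PT

/-- residues mod `5` after a sign change -/
lemma sign5 (g : ℤ) (hg : g % 2 = 1) : ∃ h : ℤ, h ^ 2 = g ^ 2 ∧ h % 2 = 1 ∧
    ((h % 5 = 0 ∧ h ^ 2 % 5 = 0) ∨ (h % 5 = 1 ∧ h ^ 2 % 5 = 1) ∨ (h % 5 = 2 ∧ h ^ 2 % 5 = 4)) := by
  have key : ∀ h : ℤ, (h % 5 = 0 → h ^ 2 % 5 = 0) ∧ (h % 5 = 1 → h ^ 2 % 5 = 1) ∧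
      (h % 5 = 2 → h ^ 2 % 5 = 4) := by
    intro h
    refine ⟨fun h1 => ?_, fun h1 => ?_, fun h1 => ?_⟩
    · rw [pow_two, Int.mul_emod, h1]; norm_num
    · rw [pow_two, Int.mul_emod, h1]; norm_num
    · rw [pow_two, Int.mul_emod, h1]; norm_num
  have h1 : g % 5 = 0 ∨ g % 5 = 1 ∨ g % 5 = 2 ∨ g % 5 = 3 ∨ g % 5 = 4 := by omega
  rcases h1 with h1 | h1 | h1 | h1 | h1
  · exact ⟨g, rfl, hg, Or.inl ⟨h1, (key g).1 h1⟩⟩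
  · exact ⟨g, rfl, hg, Or.inr (Or.inl ⟨h1, (key g).2.1 h1⟩)⟩
  · exact ⟨g, rfl, hg, Or.inr (Or.inr ⟨h1, (key g).2.2 h1⟩)⟩
  · have h2 : (-g) % 5 = 2 := by omega
    exact ⟨-g, neg_sq g, by omega, Or.inr (Or.inr ⟨h2, (key _).2.2 h2⟩)⟩
  · have h2 : (-g) % 5 = 1 := by omega
    exact ⟨-g, neg_sq g, by omega, Or.inr (Or.inl ⟨h2, (key _).2.1 h2⟩)⟩

/-- `9 D` is of the form `y² + 25 z² + 25 w²` with odd `y, z, w`. -/
lemma nine_mul (D : ℤ) (h0 : 0 ≤ D) (h8 : D % 8 = 3) (h5 : D % 5 = 1) :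
    ∃ y z w : ℤ, y ^ 2 + 25 * z ^ 2 + 25 * w ^ 2 = 9 * D ∧ y % 2 = 1 ∧ z % 2 = 1 ∧ w % 2 = 1 := by
  obtain ⟨a', b', c', habc, ha', hb', hc'⟩ := three_odd h0 h8
  obtain ⟨a, ha2, ha, ha5⟩ := sign5 a' ha'
  obtain ⟨b, hb2, hb, hb5⟩ := sign5 b' hb'
  obtain ⟨c, hc2, hc, hc5⟩ := sign5 c' hc'
  rw [← ha2, ← hb2, ← hc2] at habc
  -- the two good configurations
  have good1 : ∀ a b c : ℤ, a % 2 = 1 → b % 2 = 1 → c % 2 = 1 → b % 5 = 0 → c % 5 = 0 →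
      ∃ y z w : ℤ, y ^ 2 + 25 * z ^ 2 + 25 * w ^ 2 = 9 * (a ^ 2 + b ^ 2 + c ^ 2) ∧
        y % 2 = 1 ∧ z % 2 = 1 ∧ w % 2 = 1 := by
    intro a b c ha hb hc hb5 hc5
    obtain ⟨k, rfl⟩ : ∃ k, b = 5 * k := ⟨b / 5, by omega⟩
    obtain ⟨l, rfl⟩ : ∃ l, c = 5 * l := ⟨c / 5, by omega⟩
    exact ⟨3 * a, 3 * k, 3 * l, by ring, by omega, by omega, by omega⟩
  have good2 : ∀ a b c : ℤ, a % 2 = 1 → b % 2 = 1 → c % 2 = 1 → a % 5 = 2 → b % 5 = 1 → c % 5 = 1 →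
      ∃ y z w : ℤ, y ^ 2 + 25 * z ^ 2 + 25 * w ^ 2 = 9 * (a ^ 2 + b ^ 2 + c ^ 2) ∧
        y % 2 = 1 ∧ z % 2 = 1 ∧ w % 2 = 1 := by
    intro a b c ha hb hc ha5 hb5 hc5
    obtain ⟨k, hk⟩ : ∃ k, b - 2 * a - 2 * c = 5 * k := ⟨(b - 2 * a - 2 * c) / 5, by omega⟩
    obtain ⟨l, hl⟩ : ∃ l, c - 2 * a - 2 * b = 5 * l := ⟨(c - 2 * a - 2 * b) / 5, by omega⟩
    refine ⟨a - 2 * b - 2 * c, k, l, ?_, by omega, by omega, by omega⟩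
    have h1 : 25 * k ^ 2 = (b - 2 * a - 2 * c) ^ 2 := by rw [hk]; ring
    have h2 : 25 * l ^ 2 = (c - 2 * a - 2 * b) ^ 2 := by rw [hl]; ring
    rw [h1, h2]; ring
  have hcase : (b % 5 = 0 ∧ c % 5 = 0) ∨ (a % 5 = 0 ∧ c % 5 = 0) ∨ (a % 5 = 0 ∧ b % 5 = 0) ∨
      (a % 5 = 2 ∧ b % 5 = 1 ∧ c % 5 = 1) ∨ (b % 5 = 2 ∧ a % 5 = 1 ∧ c % 5 = 1) ∨
      (c % 5 = 2 ∧ a % 5 = 1 ∧ b % 5 = 1) := by
    have h5' : (a ^ 2 + b ^ 2 + c ^ 2) % 5 = 1 := by rw [habc]; exact h5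
    clear good1 good2
    rcases ha5 with ⟨e1, f1⟩ | ⟨e1, f1⟩ | ⟨e1, f1⟩ <;>
    rcases hb5 with ⟨e2, f2⟩ | ⟨e2, f2⟩ | ⟨e2, f2⟩ <;>
    rcases hc5 with ⟨e3, f3⟩ | ⟨e3, f3⟩ | ⟨e3, f3⟩ <;>
    first
      | (simp only [e1, e2, e3]; norm_num; done)
      | (exfalso; clear ha2 hb2 hc2 ha hb hc ha' hb' hc' e1 e2 e3; omega)
  rcases hcase with ⟨h1, h2⟩ | ⟨h1, h2⟩ | ⟨h1, h2⟩ | ⟨h1, h2, h3⟩ | ⟨h1, h2, h3⟩ | ⟨h1, h2, h3⟩
  · obtain ⟨y, z, w, h, h'⟩ := good1 a b c ha hb hc h1 h2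
    exact ⟨y, z, w, by rw [h]; linarith, h'⟩
  · obtain ⟨y, z, w, h, h'⟩ := good1 b a c hb ha hc h1 h2
    exact ⟨y, z, w, by rw [h]; linarith, h'⟩
  · obtain ⟨y, z, w, h, h'⟩ := good1 c a b hc ha hb h1 h2
    exact ⟨y, z, w, by rw [h]; linarith, h'⟩
  · obtain ⟨y, z, w, h, h'⟩ := good2 a b c ha hb hc h1 h2 h3
    exact ⟨y, z, w, by rw [h]; linarith, h'⟩
  · obtain ⟨y, z, w, h, h'⟩ := good2 b a c hb ha hc h1 h2 h3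
    exact ⟨y, z, w, by rw [h]; linarith, h'⟩
  · obtain ⟨y, z, w, h, h'⟩ := good2 c a b hc ha hb h1 h2 h3
    exact ⟨y, z, w, by rw [h]; linarith, h'⟩

lemma quadA (n : ℕ) (X y z w : ℤ) (h : 25 * X ^ 2 + y ^ 2 + 25 * z ^ 2 + 25 * w ^ 2 = 40 * n + 4)
    (hX : X % 2 = 1) (hy : y % 2 = 1) (hz : z % 2 = 1) (hw : w % 2 = 1)
    (h4 : (X + y + z + w) % 4 = 2) (hb : 3 * (40 * n + 4) < 100 * X ^ 2) : Rep n := by
  obtain ⟨a, ha⟩ : ∃ a, 2 * a = y + 5 * (X + z + w) := ⟨(y + 5 * (X + z + w)) / 2, by omega⟩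
  obtain ⟨b, hb'⟩ : ∃ b, 2 * b = y + 5 * (X - z - w) := ⟨(y + 5 * (X - z - w)) / 2, by omega⟩
  obtain ⟨c, hc⟩ : ∃ c, 2 * c = y + 5 * (-X + z - w) := ⟨(y + 5 * (-X + z - w)) / 2, by omega⟩
  obtain ⟨d, hd⟩ : ∃ d, 2 * d = y + 5 * (-X - z + w) := ⟨(y + 5 * (-X - z + w)) / 2, by omega⟩
  have hsum : a ^ 2 + b ^ 2 + c ^ 2 + d ^ 2 = 40 * n + 4 := by
    have : 4 * (a ^ 2 + b ^ 2 + c ^ 2 + d ^ 2) = 4 * (40 * n + 4) := by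
      have e : 4 * (a ^ 2 + b ^ 2 + c ^ 2 + d ^ 2) =
        (2 * a) ^ 2 + (2 * b) ^ 2 + (2 * c) ^ 2 + (2 * d) ^ 2 := by ring
      rw [e, ha, hb', hc, hd, ← h]; ring
    linarith
  have hy5 : y % 5 = 2 ∨ y % 5 = 3 := by
    have h1 : y ^ 2 % 5 = 4 := by omega
    have h2 : y % 5 = 0 ∨ y % 5 = 1 ∨ y % 5 = 2 ∨ y % 5 = 3 ∨ y % 5 = 4 := by omega
    rcases h2 with h2 | h2 | h2 | h2 | h2
    · rw [pow_two, Int.mul_emod, h2] at h1; norm_num at h1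
    · rw [pow_two, Int.mul_emod, h2] at h1; norm_num at h1
    · exact Or.inl h2
    · exact Or.inr h2
    · rw [pow_two, Int.mul_emod, h2] at h1; norm_num at h1
  have hm : (a % 10 = 1 ∧ b % 10 = 1 ∧ c % 10 = 1 ∧ d % 10 = 1) ∨
      (a % 10 = 9 ∧ b % 10 = 9 ∧ c % 10 = 9 ∧ d % 10 = 9) := by
    rcases hy5 with h5 | h5
    · left; omega
    · right; omega
  have hT : 1 * a + 1 * b + (-1) * c + (-1) * d = 10 * X := by linarith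
  have hT2 : (10 * X) ^ 2 = 100 * X ^ 2 := by ring
  have hT3 : (10 * (-X)) ^ 2 = 100 * X ^ 2 := by ring
  rcases lt_trichotomy X 0 with hX0 | hX0 | hX0
  · -- X < 0
    have h1 : 0 < -a := sgn 1 1 1 1 (-a) (-b) c d (40 * n + 4) (10 * (-X)) one_pos (by linarith)
      (by linarith) (by rw [← hsum]; ring) (by rw [hT3]; linarith)
    have h2 : 0 < -b := sgn 1 1 1 1 (-b) (-a) c d (40 * n + 4) (10 * (-X)) one_pos (by linarith)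
      (by linarith) (by rw [← hsum]; ring) (by rw [hT3]; linarith)
    have h3 : 0 < c := sgn 1 1 1 1 c (-a) (-b) d (40 * n + 4) (10 * (-X)) one_pos (by linarith)
      (by linarith) (by rw [← hsum]; ring) (by rw [hT3]; linarith)
    have h5 : 0 < d := sgn 1 1 1 1 d (-a) (-b) c (40 * n + 4) (10 * (-X)) one_pos (by linarith)
      (by linarith) (by rw [← hsum]; ring) (by rw [hT3]; linarith)
    exact rep_of n c d a b (by linarith) (by tauto) h3 h5 (by linarith) (by linarith)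
  · omega
  · have h1 : 0 < a := sgn 1 1 1 1 a b (-c) (-d) (40 * n + 4) (10 * X) one_pos (by linarith)
      (by linarith) (by rw [← hsum]; ring) (by rw [hT2]; linarith)
    have h2 : 0 < b := sgn 1 1 1 1 b a (-c) (-d) (40 * n + 4) (10 * X) one_pos (by linarith)
      (by linarith) (by rw [← hsum]; ring) (by rw [hT2]; linarith)
    have h3 : 0 < -c := sgn 1 1 1 1 (-c) a b (-d) (40 * n + 4) (10 * X) one_pos (by linarith)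
      (by linarith) (by rw [← hsum]; ring) (by rw [hT2]; linarith)
    have h5 : 0 < -d := sgn 1 1 1 1 (-d) a b (-c) (40 * n + 4) (10 * X) one_pos (by linarith)
      (by linarith) (by rw [← hsum]; ring) (by rw [hT2]; linarith)
    exact rep_of n a b c d hsum hm h1 h2 (by linarith) (by linarith)

lemma quadA' (n : ℕ) (X : ℤ) (hX : X % 2 = 1) (hlo : 3 * (40 * (n : ℤ) + 4) < 100 * X ^ 2)
    (hhi : 25 * X ^ 2 ≤ 40 * (n : ℤ) + 4) (h9 : (9 : ℤ) ∣ 40 * n + 4 - 25 * X ^ 2) : Rep n := by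
  obtain ⟨D, hD⟩ := h9
  have hX8 := sq_mod8 X hX
  obtain ⟨y, z, w, h, hy, hz, hw⟩ := nine_mul D (by linarith) (by omega) (by omega)
  have h4 : (X + y + z + w) % 4 = 2 ∨ (-X + y + z + w) % 4 = 2 := by omega
  rcases h4 with h4 | h4
  · exact quadA n X y z w (by linarith) hX hy hz hw h4 hlo
  · exact quadA n (-X) y z w (by linarith [neg_sq X]) (by omega) hy hz hw h4 (by rw [neg_sq]; exact hlo)

/-- the window for `X` -/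
lemma windowA (N S X : ℤ) (hS0 : 679 ≤ S) (hS : S ^ 2 ≤ N) (hS' : N < (S + 1) ^ 2)
    (h1 : 17321 * (S + 1) ≤ 100000 * X) (h2 : 100000 * X ≤ 17321 * (S + 1) + 1800000) :
    3 * N < 100 * X ^ 2 ∧ 25 * X ^ 2 ≤ N := by
  constructor
  · have h3 : (17321 * (S + 1)) ^ 2 ≤ (100000 * X) ^ 2 := pow_le_pow_left₀ (by linarith) h1 2
    nlinarith
  · have h3 : 5 * X ≤ S := by linarith
    have h4 : 0 ≤ 5 * X := by linarith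
    have h5 : (5 * X) ^ 2 ≤ S ^ 2 := pow_le_pow_left₀ h4 h3 2
    linarith

/-- the residue class of `X` -/
lemma classA (n : ℕ) (h3 : n % 3 = 0 ∨ n % 9 = 8) :
    ∃ r : ℤ, ∀ X : ℤ, (18 : ℤ) ∣ X - r → X % 2 = 1 ∧ (9 : ℤ) ∣ 40 * n + 4 - 25 * X ^ 2 := by
  rcases h3 with h3 | h3
  · obtain ⟨m, rfl⟩ : ∃ m, n = 3 * m := ⟨n / 3, by omega⟩
    -- X ≡ 4 + 6 m mod 9, odd
    refine ⟨13 + 6 * m, fun X hX => ⟨by omega, ?_⟩⟩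
    obtain ⟨k, hk⟩ := hX
    have hX' : X = 13 + 6 * m + 18 * k := by linarith
    subst hX'
    refine ⟨-469 - 420 * m - 1300 * k - 100 * m ^ 2 - 600 * m * k - 900 * k ^ 2, ?_⟩
    push_cast
    ring
  · obtain ⟨m, rfl⟩ : ∃ m, n = 9 * m + 8 := ⟨n / 9, by omega⟩
    refine ⟨3, fun X hX => ⟨by omega, ?_⟩⟩
    obtain ⟨k, hk⟩ := hX
    have hX' : X = 3 + 18 * k := by linarith
    subst hX'
    refine ⟨40 * m + 36 - 25 - 300 * k - 900 * k ^ 2, ?_⟩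
    push_cast
    ring

theorem caseA (n : ℕ) (hn : 20000 ≤ n) (h3 : n % 3 = 0 ∨ n % 9 = 8) : Rep n := by
  obtain ⟨S, hS1, hS2⟩ : ∃ S : ℕ, S * S ≤ 40 * n + 4 ∧ 40 * n + 4 < (S + 1) * (S + 1) :=
    ⟨Nat.sqrt (40 * n + 4), Nat.sqrt_le _, Nat.lt_succ_sqrt _⟩
  have hS0 : 679 ≤ S := by
    by_contra h
    push Not at h
    have : (S + 1) * (S + 1) ≤ 679 * 679 := Nat.mul_le_mul (by omega) (by omega)
    omega
  obtain ⟨r, hr⟩ := classA n h3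
  obtain ⟨X, hX1, hX2, hX3⟩ := exists_class (17321 * ((S : ℤ) + 1) / 100000 + 1) r 18 (by norm_num)
  obtain ⟨h1, h2⟩ := hr X hX3
  obtain ⟨h4, h5⟩ := windowA (40 * n + 4) S X (by exact_mod_cast hS0) (by
    have : ((S * S : ℕ) : ℤ) ≤ ((40 * n + 4 : ℕ) : ℤ) := by exact_mod_cast hS1
    push_cast at this; linarith) (by
    have : ((40 * n + 4 : ℕ) : ℤ) < (((S + 1) * (S + 1) : ℕ) : ℤ) := by exact_mod_cast hS2
    push_cast at this; linarith) (by omega) (by omega)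
  exact quadA' n X h1 h4 h5 h2

end Pool.Agent.J4.H20.PT
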