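import Mathlib
import Pool.Agent.J4.H20.PT.Core

/-!
# Case B: `40 n + 4 = 2 mod 3`, that is `n = 1 mod 3`

The quaternion `q = t + 5 (x i + y j + z k)` of norm `26 (10 n + 1)` is to be left-multiplied by
`c = 2 + 2 i - 3 j - 3 k` (norm `26`) and divided by `13`.
-/

set_option autoImplicit false

namespace Pool.Agent.J4.H20.PT

def E1 (t p : ℤ) : Prop := (p * p - t * t) % 13 = 0

instance (t p : ℤ) : Decidable (E1 t p) := by unfold E1; infer_instance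

def BT (t a b c : ℤ) : Prop :=
  E1 t (3 * a) ∨ E1 t (3 * b) ∨ E1 t (3 * c) ∨ E1 t (a - 2 * b - 2 * c) ∨
    E1 t (b - 2 * a - 2 * c) ∨ E1 t (c - 2 * a - 2 * b)

instance (t a b c : ℤ) : Decidable (BT t a b c) := by unfold BT; infer_instance

def BS (t a b c : ℤ) : Prop :=
  BT t a b c ∨ BT t (-a) b c ∨ BT t a (-b) c ∨ BT t a b (-c)

instance (t a b c : ℤ) : Decidable (BS t a b c) := by unfold BS; infer_instance

lemma check13 : ∀ t : ℕ, t < 13 → ∀ a : ℕ, a < 7 → ∀ b : ℕ, b < 7 → ∀ c : ℕ, c < 7 →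
    (t * t + 225 * (a * a + b * b + c * c)) % 13 = 0 → BS (t : ℤ) (a : ℤ) (b : ℤ) (c : ℤ) := by
  decide +kernel

lemma E1_congr {t p t' p' : ℤ} (ht : t % 13 = t' % 13) (hp : p % 13 = p' % 13) (h : E1 t p) :
    E1 t' p' := by
  unfold E1 at *
  rw [← Int.dvd_iff_emod_eq_zero] at *
  have h1 : (13 : ℤ) ∣ t' - t := Int.ModEq.dvd ht
  have h2 : (13 : ℤ) ∣ p' - p := Int.ModEq.dvd hp
  obtain ⟨k, hk⟩ := h
  obtain ⟨l, hl⟩ := h1
  obtain ⟨m, hm⟩ := h2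
  have e1 : t' = t + 13 * l := by linarith
  have e2 : p' = p + 13 * m := by linarith
  refine ⟨k + 2 * p * m + 13 * m ^ 2 - 2 * t * l - 13 * l ^ 2, ?_⟩
  rw [e1, e2]
  linear_combination hk

lemma BT_congr {t a b c t' a' b' c' : ℤ} (ht : t % 13 = t' % 13) (ha : a % 13 = a' % 13)
    (hb : b % 13 = b' % 13) (hc : c % 13 = c' % 13) (h : BT t a b c) : BT t' a' b' c' := by
  rcases h with h | h | h | h | h | h
  · exact Or.inl (E1_congr ht (by omega) h)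
  · exact Or.inr (Or.inl (E1_congr ht (by omega) h))
  · exact Or.inr (Or.inr (Or.inl (E1_congr ht (by omega) h)))
  · exact Or.inr (Or.inr (Or.inr (Or.inl (E1_congr ht (by omega) h))))
  · exact Or.inr (Or.inr (Or.inr (Or.inr (Or.inl (E1_congr ht (by omega) h)))))
  · exact Or.inr (Or.inr (Or.inr (Or.inr (Or.inr (E1_congr ht (by omega) h)))))

lemma BS_congr {t a b c t' a' b' c' : ℤ} (ht : t % 13 = t' % 13) (ha : a % 13 = a' % 13)
    (hb : b % 13 = b' % 13) (hc : c % 13 = c' % 13) (h : BS t a b c) : BS t' a' b' c' := by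
  have ha' : (-a) % 13 = (-a') % 13 := by omega
  have hb' : (-b) % 13 = (-b') % 13 := by omega
  have hc' : (-c) % 13 = (-c') % 13 := by omega
  rcases h with h | h | h | h
  · exact Or.inl (BT_congr ht ha hb hc h)
  · exact Or.inr (Or.inl (BT_congr ht ha' hb hc h))
  · exact Or.inr (Or.inr (Or.inl (BT_congr ht ha hb' hc h)))
  · exact Or.inr (Or.inr (Or.inr (BT_congr ht ha hb hc' h)))

/-- the goal of the search: `x` even, `y + z` odd, and the conditions mod `13` -/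
def Goal (t A : ℤ) : Prop :=
  ∃ x y z : ℤ, x ^ 2 + y ^ 2 + z ^ 2 = A ∧ x % 2 = 0 ∧ (y + z) % 2 = 1 ∧
    (13 : ℤ) ∣ y + t ∧ (13 : ℤ) ∣ 2 * x - 3 * z

lemma prime13 : Prime (13 : ℤ) := Int.prime_iff_natAbs_prime.2 (by norm_num)

lemma core {t A p q r : ℤ} (h : (13 : ℤ) ∣ t ^ 2 + 25 * A) (hA : p ^ 2 + q ^ 2 + r ^ 2 = A)
    (hp : p % 2 = 0) (hqr : (q + r) % 2 = 1) (hE : E1 t q) : Goal t A := by
  have h1 : (13 : ℤ) ∣ (q - t) * (q + t) := by
    unfold E1 at hE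
    have := Int.dvd_of_emod_eq_zero hE
    rwa [show (q - t) * (q + t) = q * q - t * t by ring]
  have h2 : (13 : ℤ) ∣ (2 * p - 3 * r) * (2 * p + 3 * r) := by
    obtain ⟨k, hk⟩ := h
    obtain ⟨l, hl⟩ := h1
    refine ⟨4 * (2 * A - k - l) - r ^ 2, ?_⟩
    subst hA
    linear_combination -4 * hk - 4 * hl
  obtain ⟨y, hy2, hy, hyp⟩ : ∃ y : ℤ, y ^ 2 = q ^ 2 ∧ (13 : ℤ) ∣ y + t ∧ y % 2 = q % 2 := by
    rcases prime13.dvd_or_dvd h1 with h3 | h3
    · refine ⟨-q, neg_sq q, ?_, by omega⟩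
      rw [show -q + t = -(q - t) by ring]
      exact (dvd_neg).2 h3
    · exact ⟨q, rfl, h3, rfl⟩
  obtain ⟨x, hx2, hx, hxp⟩ : ∃ x : ℤ, x ^ 2 = p ^ 2 ∧ (13 : ℤ) ∣ 2 * x - 3 * r ∧ x % 2 = p % 2 := by
    rcases prime13.dvd_or_dvd h2 with h3 | h3
    · exact ⟨p, rfl, h3, rfl⟩
    · refine ⟨-p, neg_sq p, ?_, by omega⟩
      rw [show 2 * (-p) - 3 * r = -(2 * p + 3 * r) by ring]
      exact (dvd_neg).2 h3
  exact ⟨x, y, r, by rw [hx2, hy2]; exact hA, by omega, by omega, hy, hx⟩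

/-- exactly one of `p, q, r` is odd -/
def Par (p q r : ℤ) : Prop :=
  (p % 2 = 0 ∧ q % 2 = 0 ∧ r % 2 = 1) ∨ (p % 2 = 0 ∧ q % 2 = 1 ∧ r % 2 = 0) ∨
    (p % 2 = 1 ∧ q % 2 = 0 ∧ r % 2 = 0)

lemma core1 {t A p q r : ℤ} (h : (13 : ℤ) ∣ t ^ 2 + 25 * A) (hA : p ^ 2 + q ^ 2 + r ^ 2 = A)
    (hP : Par p q r) (hE : E1 t p ∨ E1 t q ∨ E1 t r) : Goal t A := by
  unfold Par at hP
  rcases hE with hE | hE | hE
  · -- q, r the other two
    rcases Int.emod_two_eq_zero_or_one q with h1 | h1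
    · exact core (p := q) (q := p) (r := r) h (by linarith) h1 (by omega) hE
    · exact core (p := r) (q := p) (r := q) h (by linarith) (by omega) (by omega) hE
  · rcases Int.emod_two_eq_zero_or_one p with h1 | h1
    · exact core (p := p) (q := q) (r := r) h (by linarith) h1 (by omega) hE
    · exact core (p := r) (q := q) (r := p) h (by linarith) (by omega) (by omega) hE
  · rcases Int.emod_two_eq_zero_or_one p with h1 | h1
    · exact core (p := p) (q := r) (r := q) h (by linarith) h1 (by omega) hE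
    · exact core (p := q) (q := r) (r := p) h (by linarith) (by omega) (by omega) hE

lemma BT_goal {t a b c : ℤ} (h : (13 : ℤ) ∣ t ^ 2 + 25 * (9 * (a ^ 2 + b ^ 2 + c ^ 2)))
    (hP : Par a b c) (hB : BT t a b c) : Goal t (9 * (a ^ 2 + b ^ 2 + c ^ 2)) := by
  have hP1 : Par (3 * a) (3 * b) (3 * c) := by unfold Par at *; omega
  have hP2 : Par (a - 2 * b - 2 * c) (b - 2 * a - 2 * c) (c - 2 * a - 2 * b) := by
    unfold Par at *; omega
  rcases hB with hB | hB | hB | hB | hB | hB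
  · exact core1 h (by ring) hP1 (Or.inl hB)
  · exact core1 h (by ring) hP1 (Or.inr (Or.inl hB))
  · exact core1 h (by ring) hP1 (Or.inr (Or.inr hB))
  · exact core1 h (by ring) hP2 (Or.inl hB)
  · exact core1 h (by ring) hP2 (Or.inr (Or.inl hB))
  · exact core1 h (by ring) hP2 (Or.inr (Or.inr hB))

lemma BS_goal {t a b c : ℤ} (h : (13 : ℤ) ∣ t ^ 2 + 25 * (9 * (a ^ 2 + b ^ 2 + c ^ 2)))
    (hP : Par a b c) (hB : BS t a b c) : Goal t (9 * (a ^ 2 + b ^ 2 + c ^ 2)) := by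
  have hP1 : Par (-a) b c := by unfold Par at *; omega
  have hP2 : Par a (-b) c := by unfold Par at *; omega
  have hP3 : Par a b (-c) := by unfold Par at *; omega
  rcases hB with hB | hB | hB | hB
  · exact BT_goal h hP hB
  · have := BT_goal (t := t) (a := -a) (b := b) (c := c) (by rw [neg_sq]; exact h) hP1 hB
    rwa [neg_sq] at this
  · have := BT_goal (t := t) (a := a) (b := -b) (c := c) (by rw [neg_sq]; exact h) hP2 hB
    rwa [neg_sq] at this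
  · have := BT_goal (t := t) (a := a) (b := b) (c := -c) (by rw [neg_sq]; exact h) hP3 hB
    rwa [neg_sq] at this

lemma sign13 (g : ℤ) : ∃ h : ℤ, h ^ 2 = g ^ 2 ∧ h % 2 = g % 2 ∧ h % 13 < 7 := by
  have h1 : g % 13 < 7 ∨ (-g) % 13 < 7 := by
    rcases lt_or_ge (g % 13) 7 with h | h
    · exact Or.inl h
    · right
      have h23 : g % 13 < 13 := Int.emod_lt_of_pos g (by norm_num)
      have e : -g = (13 - g % 13) + 13 * (-(g / 13) - 1) := by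
        have := Int.emod_add_mul_ediv g 13
        linarith
      rw [e, Int.add_mul_emod_self_left, Int.emod_eq_of_lt (by linarith) (by linarith)]
      linarith
  rcases h1 with h1 | h1
  · exact ⟨g, rfl, rfl, h1⟩
  · exact ⟨-g, neg_sq g, by omega, h1⟩

lemma emod_sq' (g : ℤ) (m : ℤ) : ∃ k : ℤ, g ^ 2 = (g % m) ^ 2 + m * k := by
  have h := Int.emod_add_mul_ediv g m
  refine ⟨2 * (g % m) * (g / m) + m * (g / m) ^ 2, ?_⟩
  conv_lhs => rw [← h]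
  ring

lemma exists_goal (t x y z : ℤ) (hx : x % 2 = 0) (hy : y % 2 = 0) (hz : z % 2 = 1)
    (h : (13 : ℤ) ∣ t ^ 2 + 25 * (9 * (x ^ 2 + y ^ 2 + z ^ 2))) :
    Goal t (9 * (x ^ 2 + y ^ 2 + z ^ 2)) := by
  obtain ⟨a, ha, ha1, ha2⟩ := sign13 x
  obtain ⟨b, hb, hb1, hb2⟩ := sign13 y
  obtain ⟨c, hc, hc1, hc2⟩ := sign13 z
  rw [← ha, ← hb, ← hc] at h ⊢
  obtain ⟨a', ha'⟩ : ∃ a' : ℕ, a % 13 = a' := ⟨(a % 13).toNat, by omega⟩
  obtain ⟨b', hb'⟩ : ∃ b' : ℕ, b % 13 = b' := ⟨(b % 13).toNat, by omega⟩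
  obtain ⟨c', hc'⟩ : ∃ c' : ℕ, c % 13 = c' := ⟨(c % 13).toNat, by omega⟩
  obtain ⟨t', ht'⟩ : ∃ t' : ℕ, t % 13 = t' := ⟨(t % 13).toNat, by omega⟩
  obtain ⟨ka, hka⟩ := emod_sq' a 13
  obtain ⟨kb, hkb⟩ := emod_sq' b 13
  obtain ⟨kc, hkc⟩ := emod_sq' c 13
  obtain ⟨kt, hkt⟩ := emod_sq' t 13
  have hq : (t' * t' + 225 * (a' * a' + b' * b' + c' * c')) % 13 = 0 := by
    obtain ⟨k, hk⟩ := h
    have e : (((t' * t' + 225 * (a' * a' + b' * b' + c' * c') : ℕ)) : ℤ) =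
        13 * (k - kt - 225 * (ka + kb + kc)) := by
      push_cast
      rw [hkt, hka, hkb, hkc, ha', hb', hc', ht'] at hk
      linarith
    omega
  have hcs := check13 t' (by omega) a' (by omega) b' (by omega) c' (by omega) hq
  have hcs' : BS t a b c := BS_congr (by omega) (by omega) (by omega) (by omega) hcs
  exact BS_goal h (Or.inl ⟨by omega, by omega, by omega⟩) hcs'

lemma tenB1 (a t u : ℤ) (h : 13 * a = 2 * t + 10 * u + 5) :
    (t % 10 = 1 → a % 10 = 9) ∧ (t % 10 = 9 → a % 10 = 1) := by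
  omega

lemma tenB2 (a t u : ℤ) (h : 13 * a = -3 * t + 10 * u) :
    (t % 10 = 1 → a % 10 = 9) ∧ (t % 10 = 9 → a % 10 = 1) := by
  omega

lemma t10B (t : ℤ) (ht : t % 2 = 1) (h : t ^ 2 % 5 = 1) : t % 10 = 1 ∨ t % 10 = 9 := by
  have h2 : t % 5 = 0 ∨ t % 5 = 1 ∨ t % 5 = 2 ∨ t % 5 = 3 ∨ t % 5 = 4 := by omega
  rcases h2 with h2 | h2 | h2 | h2 | h2
  · rw [pow_two, Int.mul_emod, h2] at h; norm_num at h
  · left; omega
  · rw [pow_two, Int.mul_emod, h2] at h; norm_num at h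
  · rw [pow_two, Int.mul_emod, h2] at h; norm_num at h
  · right; omega

lemma sq5B (T W n : ℤ) (h : T + 25 * W = 26 * (10 * n + 1)) : T % 5 = 1 := by
  omega

lemma quadB (n : ℕ) (t A : ℤ) (h : t ^ 2 + 25 * A = 26 * (10 * n + 1)) (ht0 : 0 < t)
    (ht : t % 2 = 1) (hb : 22 * (40 * (n : ℤ) + 4) < 4 * t ^ 2) (hG : Goal t A) : Rep n := by
  obtain ⟨x, y, z, hxyz, hx, hyz, ⟨k, hk⟩, ⟨l, hl⟩⟩ := hG
  rw [← hxyz] at h
  clear hxyz
  obtain ⟨a, ha⟩ : ∃ a, 13 * a = 2 * t - 10 * x + 15 * y + 15 * z :=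
    ⟨-t - 5 * l + 15 * k, by linarith⟩
  obtain ⟨b, hb'⟩ : ∃ b, 13 * b = 2 * t + 10 * x + 15 * y - 15 * z :=
    ⟨-t + 5 * l + 15 * k, by linarith⟩
  obtain ⟨c, hc⟩ : ∃ c, 13 * c = -3 * t - 15 * x + 10 * y - 10 * z :=
    ⟨-t + 10 * k - l - x - z, by linarith⟩
  obtain ⟨d, hd⟩ : ∃ d, 13 * d = -3 * t + 15 * x + 10 * y + 10 * z :=
    ⟨-t + 10 * k + l + x + z, by linarith⟩
  have hsum : a ^ 2 + b ^ 2 + c ^ 2 + d ^ 2 = 40 * n + 4 := by
    have e : 169 * (a ^ 2 + b ^ 2 + c ^ 2 + d ^ 2) =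
        26 * (t ^ 2 + 25 * (x ^ 2 + y ^ 2 + z ^ 2)) := by
      have e1 : 169 * (a ^ 2 + b ^ 2 + c ^ 2 + d ^ 2) =
        (13 * a) ^ 2 + (13 * b) ^ 2 + (13 * c) ^ 2 + (13 * d) ^ 2 := by ring
      rw [e1, ha, hb', hc, hd]; ring
    rw [h] at e
    linarith
  have hT : 2 * a + 2 * b + (-3) * c + (-3) * d = 2 * t := by linarith
  have hT2 : (2 * t) ^ 2 = 4 * t ^ 2 := by ring
  have hN0 : (0 : ℤ) < 40 * n + 4 := by positivity
  have ha0 : 0 < a := sgn 2 2 3 3 a b (-c) (-d) (40 * n + 4) (2 * t) (by norm_num) (by linarith)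
      (by linarith) (by rw [← hsum]; ring) (by rw [hT2]; linarith)
  have hb0 : 0 < b := sgn 2 2 3 3 b a (-c) (-d) (40 * n + 4) (2 * t) (by norm_num) (by linarith)
      (by linarith) (by rw [← hsum]; ring) (by rw [hT2]; linarith)
  have hc0 : 0 < -c := sgn 3 2 2 3 (-c) a b (-d) (40 * n + 4) (2 * t) (by norm_num) (by linarith)
      (by linarith) (by rw [← hsum]; ring) (by rw [hT2]; linarith)
  have hd0 : 0 < -d := sgn 3 2 2 3 (-d) a b (-c) (40 * n + 4) (2 * t) (by norm_num) (by linarith)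
      (by linarith) (by rw [← hsum]; ring) (by rw [hT2]; linarith)
  have ht10 := t10B t ht (sq5B _ _ n h)
  obtain ⟨x', hx'⟩ : ∃ x', x = 2 * x' := ⟨x / 2, by clear h hsum; omega⟩
  obtain ⟨s, hs⟩ : ∃ s, y + z = 2 * s + 1 := ⟨(y + z) / 2, by clear h hsum; omega⟩
  have ha10 := tenB1 a t (-2 * x' + 3 * s + 1) (by rw [ha, hx']; linarith)
  have hb10 := tenB1 b t (2 * x' + 3 * s - 3 * z + 1) (by rw [hb', hx']; linarith)
  have hc10 := tenB2 c t (-3 * x' + y - z) (by rw [hc, hx']; ring)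
  have hd10 := tenB2 d t (3 * x' + y + z) (by rw [hd, hx']; ring)
  have hm : (a % 10 = 1 ∧ b % 10 = 1 ∧ c % 10 = 1 ∧ d % 10 = 1) ∨
      (a % 10 = 9 ∧ b % 10 = 9 ∧ c % 10 = 9 ∧ d % 10 = 9) := by
    rcases ht10 with h10 | h10
    · right
      exact ⟨ha10.1 h10, hb10.1 h10, hc10.1 h10, hd10.1 h10⟩
    · left
      exact ⟨ha10.2 h10, hb10.2 h10, hc10.2 h10, hd10.2 h10⟩
  exact rep_of n a b c d hsum hm ha0 hb0 (by linarith) (by linarith)

/-- the window for `t` -/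
lemma windowB (N S t : ℤ) (hS0 : 2700 ≤ S) (hS : S ^ 2 ≤ N) (hS' : N < (S + 1) ^ 2)
    (h1 : 23453 * (S + 1) ≤ 10000 * t) (h2 : 10000 * t ≤ 23453 * (S + 1) + 4500000) :
    22 * N < 4 * t ^ 2 ∧ 4 * t ^ 2 ≤ 26 * N := by
  constructor
  · have h3 : (23453 * (S + 1)) ^ 2 ≤ (10000 * t) ^ 2 := pow_le_pow_left₀ (by linarith) h1 2
    nlinarith
  · have h3 : 10000 * t ≤ 25495 * S := by linarith
    have h4 : 0 ≤ 10000 * t := by linarith
    have h5 : (10000 * t) ^ 2 ≤ (25495 * S) ^ 2 := pow_le_pow_left₀ h4 h3 2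
    nlinarith

theorem caseB (n : ℕ) (hn : 200000 ≤ n) (h3 : n % 3 = 1) : Rep n := by
  obtain ⟨S, hS1, hS2⟩ : ∃ S : ℕ, S * S ≤ 40 * n + 4 ∧ 40 * n + 4 < (S + 1) * (S + 1) :=
    ⟨Nat.sqrt (40 * n + 4), Nat.sqrt_le _, Nat.lt_succ_sqrt _⟩
  have hS0 : 2700 ≤ S := by
    by_contra h
    push Not at h
    have : (S + 1) * (S + 1) ≤ 2700 * 2700 := Nat.mul_le_mul (by omega) (by omega)
    omega
  obtain ⟨m, rfl⟩ : ∃ m, n = 3 * m + 1 := ⟨n / 3, by omega⟩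
  obtain ⟨t, ht1, ht2, k, hk⟩ := exists_class (23453 * ((S : ℤ) + 1) / 10000 + 1)
    (31 + 390 * m) 450 (by norm_num)
  obtain ⟨h4, h5⟩ := windowB (40 * (3 * m + 1) + 4) S t (by exact_mod_cast hS0) (by
    have : ((S * S : ℕ) : ℤ) ≤ ((40 * (3 * m + 1) + 4 : ℕ) : ℤ) := by exact_mod_cast hS1
    push_cast at this; linarith) (by
    have : ((40 * (3 * m + 1) + 4 : ℕ) : ℤ) < (((S + 1) * (S + 1) : ℕ) : ℤ) := by exact_mod_cast hS2
    push_cast at this; linarith) (by omega) (by omega)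
  have ht : t = 31 + 390 * m + 450 * k := by linarith
  have ht0 : 0 < t := by omega
  -- the number which is a sum of three squares
  obtain ⟨D, hD⟩ : ∃ D, 225 * D = 26 * (30 * m + 11) - t ^ 2 := by
    refine ⟨-3 - 104 * m - 676 * m ^ 2 - 900 * k ^ 2 - 124 * k - 1560 * m * k, ?_⟩
    rw [ht]; ring
  have hto : t % 2 = 1 := by omega
  have ht8 := sq_mod8 t hto
  obtain ⟨x, y, z, hx, hx1, hy1, hz1⟩ := three_one (D := D) (by nlinarith) (by omega)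
  have hmain : t ^ 2 + 25 * (9 * (x ^ 2 + y ^ 2 + z ^ 2)) = 26 * (10 * ((3 * m + 1 : ℕ) : ℤ) + 1) := by
    rw [hx]; push_cast; linarith
  refine quadB (3 * m + 1) t (9 * (x ^ 2 + y ^ 2 + z ^ 2)) hmain ht0 hto ?_ ?_
  · push_cast; exact h4
  · refine exists_goal t x y z hx1 hy1 hz1 ?_
    rw [hmain]
    exact ⟨2 * (10 * ((3 * m + 1 : ℕ) : ℤ) + 1), by ring⟩

end Pool.Agent.J4.H20.PT
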