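import Mathlib
import Pool.Agent.J4.H20.PT.Core

/-!
# Case C: `40 n + 4 = 3 N'` with `n = 2 mod 3`

The quaternion `q = t + 5 (x i + y j + z k)` of norm `23 N'` is to be left-multiplied by
`c = 1 + 6 i - 4 j - 4 k` (norm `69`) and divided by `23`; the 24 rotations of the cube act simply
transitively on the 24 left ideals of norm `23`, so a signed permutation of `(x, y, z)` makes the
product divisible by `23`.
-/

set_option autoImplicit false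

namespace Pool.Agent.J4.H20.PT

/-- the divisibility conditions for `c = (1, 6, -4, -4)` -/
def CC (t x y z : ℤ) : Prop :=
  (t - 7 * x - 3 * y - 3 * z) % 23 = 0 ∧ (6 * t + 5 * x - 3 * y + 3 * z) % 23 = 0

instance (t x y z : ℤ) : Decidable (CC t x y z) := by unfold CC; infer_instance

/-- one of the six permutations works -/
def CP (t x y z : ℤ) : Prop :=
  CC t x y z ∨ CC t x z y ∨ CC t y x z ∨ CC t y z x ∨ CC t z x y ∨ CC t z y x

instance (t x y z : ℤ) : Decidable (CP t x y z) := by unfold CP; infer_instance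

/-- for some signs -/
def CS (t x y z : ℤ) : Prop :=
  CP t x y z ∨ CP t (-x) y z ∨ CP t x (-y) z ∨ CP t x y (-z) ∨ CP t (-x) (-y) z ∨
    CP t (-x) y (-z) ∨ CP t x (-y) (-z) ∨ CP t (-x) (-y) (-z)

instance (t x y z : ℤ) : Decidable (CS t x y z) := by unfold CS; infer_instance

lemma check23 : ∀ t : ℕ, t < 23 → ∀ a : ℕ, a < 12 → ∀ b : ℕ, b < 12 → ∀ c : ℕ, c < 12 →
    (t * t + 25 * (a * a + b * b + c * c)) % 23 = 0 → CS (t : ℤ) (a : ℤ) (b : ℤ) (c : ℤ) := by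
  decide +kernel

lemma CC_congr {t x y z t' x' y' z' : ℤ} (ht : t % 23 = t' % 23) (hx : x % 23 = x' % 23)
    (hy : y % 23 = y' % 23) (hz : z % 23 = z' % 23) (h : CC t x y z) : CC t' x' y' z' := by
  unfold CC at *
  omega

lemma CP_congr {t x y z t' x' y' z' : ℤ} (ht : t % 23 = t' % 23) (hx : x % 23 = x' % 23)
    (hy : y % 23 = y' % 23) (hz : z % 23 = z' % 23) (h : CP t x y z) : CP t' x' y' z' := by
  rcases h with h | h | h | h | h | h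
  · exact Or.inl (CC_congr ht hx hy hz h)
  · exact Or.inr (Or.inl (CC_congr ht hx hz hy h))
  · exact Or.inr (Or.inr (Or.inl (CC_congr ht hy hx hz h)))
  · exact Or.inr (Or.inr (Or.inr (Or.inl (CC_congr ht hy hz hx h))))
  · exact Or.inr (Or.inr (Or.inr (Or.inr (Or.inl (CC_congr ht hz hx hy h)))))
  · exact Or.inr (Or.inr (Or.inr (Or.inr (Or.inr (CC_congr ht hz hy hx h)))))

lemma CS_congr {t x y z t' x' y' z' : ℤ} (ht : t % 23 = t' % 23) (hx : x % 23 = x' % 23)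
    (hy : y % 23 = y' % 23) (hz : z % 23 = z' % 23) (h : CS t x y z) : CS t' x' y' z' := by
  have hx' : (-x) % 23 = (-x') % 23 := by omega
  have hy' : (-y) % 23 = (-y') % 23 := by omega
  have hz' : (-z) % 23 = (-z') % 23 := by omega
  rcases h with h | h | h | h | h | h | h | h
  · exact Or.inl (CP_congr ht hx hy hz h)
  · exact Or.inr (Or.inl (CP_congr ht hx' hy hz h))
  · exact Or.inr (Or.inr (Or.inl (CP_congr ht hx hy' hz h)))
  · exact Or.inr (Or.inr (Or.inr (Or.inl (CP_congr ht hx hy hz' h))))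
  · exact Or.inr (Or.inr (Or.inr (Or.inr (Or.inl (CP_congr ht hx' hy' hz h)))))
  · exact Or.inr (Or.inr (Or.inr (Or.inr (Or.inr (Or.inl (CP_congr ht hx' hy hz' h))))))
  · exact Or.inr (Or.inr (Or.inr (Or.inr (Or.inr (Or.inr (Or.inl (CP_congr ht hx hy' hz' h)))))))
  · exact Or.inr (Or.inr (Or.inr (Or.inr (Or.inr (Or.inr (Or.inr (CP_congr ht hx' hy' hz' h)))))))

lemma CP_exists {t x y z : ℤ} (hx : x % 2 = 1) (hy : y % 2 = 1) (hz : z % 2 = 1)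
    (h : CP t x y z) : ∃ x' y' z' : ℤ, x' ^ 2 + y' ^ 2 + z' ^ 2 = x ^ 2 + y ^ 2 + z ^ 2 ∧
      x' % 2 = 1 ∧ y' % 2 = 1 ∧ z' % 2 = 1 ∧ CC t x' y' z' := by
  rcases h with h | h | h | h | h | h
  · exact ⟨x, y, z, by ring, hx, hy, hz, h⟩
  · exact ⟨x, z, y, by ring, hx, hz, hy, h⟩
  · exact ⟨y, x, z, by ring, hy, hx, hz, h⟩
  · exact ⟨y, z, x, by ring, hy, hz, hx, h⟩
  · exact ⟨z, x, y, by ring, hz, hx, hy, h⟩
  · exact ⟨z, y, x, by ring, hz, hy, hx, h⟩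

lemma CS_exists {t x y z : ℤ} (hx : x % 2 = 1) (hy : y % 2 = 1) (hz : z % 2 = 1)
    (h : CS t x y z) : ∃ x' y' z' : ℤ, x' ^ 2 + y' ^ 2 + z' ^ 2 = x ^ 2 + y ^ 2 + z ^ 2 ∧
      x' % 2 = 1 ∧ y' % 2 = 1 ∧ z' % 2 = 1 ∧ CC t x' y' z' := by
  have key : ∀ x1 y1 z1 : ℤ, x1 ^ 2 + y1 ^ 2 + z1 ^ 2 = x ^ 2 + y ^ 2 + z ^ 2 → x1 % 2 = 1 →
      y1 % 2 = 1 → z1 % 2 = 1 → CP t x1 y1 z1 →
      ∃ x' y' z' : ℤ, x' ^ 2 + y' ^ 2 + z' ^ 2 = x ^ 2 + y ^ 2 + z ^ 2 ∧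
      x' % 2 = 1 ∧ y' % 2 = 1 ∧ z' % 2 = 1 ∧ CC t x' y' z' := by
    intro x1 y1 z1 h1 h2 h3 h4 h5
    obtain ⟨x', y', z', h6, h7⟩ := CP_exists h2 h3 h4 h5
    exact ⟨x', y', z', h6.trans h1, h7⟩
  have hx' : (-x) % 2 = 1 := by omega
  have hy' : (-y) % 2 = 1 := by omega
  have hz' : (-z) % 2 = 1 := by omega
  rcases h with h | h | h | h | h | h | h | h
  · exact key _ _ _ rfl hx hy hz h
  · exact key _ _ _ (by ring) hx' hy hz h
  · exact key _ _ _ (by ring) hx hy' hz h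
  · exact key _ _ _ (by ring) hx hy hz' h
  · exact key _ _ _ (by ring) hx' hy' hz h
  · exact key _ _ _ (by ring) hx' hy hz' h
  · exact key _ _ _ (by ring) hx hy' hz' h
  · exact key _ _ _ (by ring) hx' hy' hz' h

lemma sign23 (g : ℤ) (hg : g % 2 = 1) : ∃ h : ℤ, h ^ 2 = g ^ 2 ∧ h % 2 = 1 ∧ h % 23 < 12 := by
  have h1 : g % 23 < 12 ∨ (-g) % 23 < 12 := by
    rcases lt_or_ge (g % 23) 12 with h | h
    · exact Or.inl h
    · right
      have h23 : g % 23 < 23 := Int.emod_lt_of_pos g (by norm_num)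
      have e : -g = (23 - g % 23) + 23 * (-(g / 23) - 1) := by
        have := Int.emod_add_mul_ediv g 23
        linarith
      rw [e, Int.add_mul_emod_self_left, Int.emod_eq_of_lt (by linarith) (by linarith)]
      linarith
  rcases h1 with h1 | h1
  · exact ⟨g, rfl, hg, h1⟩
  · exact ⟨-g, neg_sq g, by omega, h1⟩

lemma emod_sq (g : ℤ) (m : ℤ) : ∃ k : ℤ, g ^ 2 = (g % m) ^ 2 + m * k := by
  have h := Int.emod_add_mul_ediv g m
  refine ⟨2 * (g % m) * (g / m) + m * (g / m) ^ 2, ?_⟩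
  conv_lhs => rw [← h]
  ring

/-- A signed permutation of `(x, y, z)` satisfies the conditions mod `23`. -/
lemma exists_CC (t x y z : ℤ) (hx : x % 2 = 1) (hy : y % 2 = 1) (hz : z % 2 = 1)
    (h : (23 : ℤ) ∣ t ^ 2 + 25 * (x ^ 2 + y ^ 2 + z ^ 2)) :
    ∃ x' y' z' : ℤ, x' ^ 2 + y' ^ 2 + z' ^ 2 = x ^ 2 + y ^ 2 + z ^ 2 ∧
      x' % 2 = 1 ∧ y' % 2 = 1 ∧ z' % 2 = 1 ∧ CC t x' y' z' := by
  obtain ⟨a, ha, ha1, ha2⟩ := sign23 x hx
  obtain ⟨b, hb, hb1, hb2⟩ := sign23 y hy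
  obtain ⟨c, hc, hc1, hc2⟩ := sign23 z hz
  rw [← ha, ← hb, ← hc] at h ⊢
  obtain ⟨a', ha'⟩ : ∃ a' : ℕ, a % 23 = a' := ⟨(a % 23).toNat, by omega⟩
  obtain ⟨b', hb'⟩ : ∃ b' : ℕ, b % 23 = b' := ⟨(b % 23).toNat, by omega⟩
  obtain ⟨c', hc'⟩ : ∃ c' : ℕ, c % 23 = c' := ⟨(c % 23).toNat, by omega⟩
  obtain ⟨t', ht'⟩ : ∃ t' : ℕ, t % 23 = t' := ⟨(t % 23).toNat, by omega⟩
  obtain ⟨ka, hka⟩ := emod_sq a 23
  obtain ⟨kb, hkb⟩ := emod_sq b 23
  obtain ⟨kc, hkc⟩ := emod_sq c 23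
  obtain ⟨kt, hkt⟩ := emod_sq t 23
  obtain ⟨k, hk⟩ := h
  have hq : (t' * t' + 25 * (a' * a' + b' * b' + c' * c')) % 23 = 0 := by
    have e : (((t' * t' + 25 * (a' * a' + b' * b' + c' * c') : ℕ)) : ℤ) =
        23 * (k - kt - 25 * (ka + kb + kc)) := by
      push_cast
      rw [hkt, hka, hkb, hkc, ha', hb', hc', ht'] at hk
      linarith
    omega
  have hcs := check23 t' (by omega) a' (by omega) b' (by omega) c' (by omega) hq
  have hcs' : CS t a b c := CS_congr (by omega) (by omega) (by omega) (by omega) hcs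
  exact CS_exists ha1 hb1 hc1 hcs'

lemma ten_of (a t u : ℤ) (h : 23 * a = t + 10 * u) :
    (t % 10 = 7 → a % 10 = 9) ∧ (t % 10 = 3 → a % 10 = 1) := by
  omega

lemma t10_of (t : ℤ) (ht : t % 2 = 1) : (t % 5 = 2 → t % 10 = 7) ∧ (t % 5 = 3 → t % 10 = 3) := by
  omega

lemma half_add (x y : ℤ) (hx : x % 2 = 1) (hy : y % 2 = 1) : 2 * ((x + y) / 2) = x + y := by
  omega

lemma half_sub (x y : ℤ) (hx : x % 2 = 1) (hy : y % 2 = 1) : 2 * ((x - y) / 2) = x - y := by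
  omega

lemma sq5_of (T W N' n : ℤ) (hN : 3 * N' = 40 * n + 4) (h : T + 25 * W = 23 * N') :
    T % 5 = 4 := by
  omega

lemma five_of (t : ℤ) (h1 : t ^ 2 % 5 = 4) : t % 5 = 2 ∨ t % 5 = 3 := by
  have h2 : t % 5 = 0 ∨ t % 5 = 1 ∨ t % 5 = 2 ∨ t % 5 = 3 ∨ t % 5 = 4 := by omega
  rcases h2 with h2 | h2 | h2 | h2 | h2
  · rw [pow_two, Int.mul_emod, h2] at h1; norm_num at h1
  · rw [pow_two, Int.mul_emod, h2] at h1; norm_num at h1
  · exact Or.inl h2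
  · exact Or.inr h2
  · rw [pow_two, Int.mul_emod, h2] at h1; norm_num at h1

lemma quadC (n : ℕ) (t x y z N' : ℤ) (hN : 3 * N' = 40 * n + 4)
    (h : t ^ 2 + 25 * (x ^ 2 + y ^ 2 + z ^ 2) = 23 * N') (ht0 : 0 < t) (ht : t % 2 = 1)
    (hx : x % 2 = 1) (hy : y % 2 = 1) (hz : z % 2 = 1) (hb : 68 * (40 * (n : ℤ) + 4) < 9 * t ^ 2) :
    Rep n := by
  obtain ⟨x, y, z, hxyz, hx, hy, hz, hC1, hC2⟩ := exists_CC t x y z hx hy hz ⟨N', h⟩
  rw [← hxyz] at h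
  clear hxyz
  obtain ⟨k1, h1⟩ : (23 : ℤ) ∣ t - 7 * x - 3 * y - 3 * z := Int.dvd_of_emod_eq_zero hC1
  obtain ⟨k2, h2⟩ : (23 : ℤ) ∣ 6 * t + 5 * x - 3 * y + 3 * z := Int.dvd_of_emod_eq_zero hC2
  obtain ⟨a, ha⟩ : ∃ a, 23 * a = t - 30 * x + 20 * y + 20 * z := ⟨k1 - x + y + z, by linarith⟩
  obtain ⟨b, hb'⟩ : ∃ b, 23 * b = 6 * t + 5 * x + 20 * y - 20 * z := ⟨k2 + y - z, by linarith⟩
  obtain ⟨c, hc⟩ : ∃ c, 23 * c = 5 * y - 30 * z - 4 * t - 20 * x :=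
    ⟨8 * k1 + 21 * k2 - (6 * t + 3 * x - 4 * y + 3 * z), by linarith⟩
  obtain ⟨d, hd⟩ : ∃ d, 23 * d = 5 * z + 30 * y + 20 * x - 4 * t :=
    ⟨21 * k1 + 15 * k2 - (5 * t - 4 * x - 6 * y - z), by linarith⟩
  have hsum : a ^ 2 + b ^ 2 + c ^ 2 + d ^ 2 = 40 * n + 4 := by
    have e : 529 * (a ^ 2 + b ^ 2 + c ^ 2 + d ^ 2) =
        69 * (t ^ 2 + 25 * (x ^ 2 + y ^ 2 + z ^ 2)) := by
      have e1 : 529 * (a ^ 2 + b ^ 2 + c ^ 2 + d ^ 2) =
        (23 * a) ^ 2 + (23 * b) ^ 2 + (23 * c) ^ 2 + (23 * d) ^ 2 := by ring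
      rw [e1, ha, hb', hc, hd]; ring
    rw [h] at e
    linarith
  have hT : a + 6 * b + (-4) * c + (-4) * d = 3 * t := by linarith
  have hT2 : (3 * t) ^ 2 = 9 * t ^ 2 := by ring
  have hN0 : (0 : ℤ) < 40 * n + 4 := by positivity
  have ha0 : 0 < a := sgn 1 6 4 4 a b (-c) (-d) (40 * n + 4) (3 * t) one_pos (by linarith)
      (by linarith) (by rw [← hsum]; ring) (by rw [hT2]; linarith)
  have hb0 : 0 < b := sgn 6 1 4 4 b a (-c) (-d) (40 * n + 4) (3 * t) (by norm_num) (by linarith)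
      (by linarith) (by rw [← hsum]; ring) (by rw [hT2]; linarith)
  have hc0 : 0 < -c := sgn 4 1 6 4 (-c) a b (-d) (40 * n + 4) (3 * t) (by norm_num) (by linarith)
      (by linarith) (by rw [← hsum]; ring) (by rw [hT2]; linarith)
  have hd0 : 0 < -d := sgn 4 1 6 4 (-d) a b (-c) (40 * n + 4) (3 * t) (by norm_num) (by linarith)
      (by linarith) (by rw [← hsum]; ring) (by rw [hT2]; linarith)
  have ht5 : t % 5 = 2 ∨ t % 5 = 3 := five_of t (sq5_of _ _ N' n hN h)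
  have ha10 := ten_of a t (-3 * x + 2 * y + 2 * z) (by linarith)
  have hb10 := ten_of b t ((t + x) / 2 + 2 * y - 2 * z) (by
    have := half_add t x ht hx
    linarith)
  have hc10 := ten_of c t (-3 * z - 2 * x + (y - t) / 2) (by
    have := half_sub y t hy ht
    linarith)
  have hd10 := ten_of d t (3 * y + 2 * x + (z - t) / 2) (by
    have := half_sub z t hz ht
    linarith)
  have hm : (a % 10 = 1 ∧ b % 10 = 1 ∧ c % 10 = 1 ∧ d % 10 = 1) ∨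
      (a % 10 = 9 ∧ b % 10 = 9 ∧ c % 10 = 9 ∧ d % 10 = 9) := by
    rcases ht5 with h5 | h5
    · have h10 : t % 10 = 7 := (t10_of t ht).1 h5
      right
      exact ⟨ha10.1 h10, hb10.1 h10, hc10.1 h10, hd10.1 h10⟩
    · have h10 : t % 10 = 3 := (t10_of t ht).2 h5
      left
      exact ⟨ha10.2 h10, hb10.2 h10, hc10.2 h10, hd10.2 h10⟩
  exact rep_of n a b c d hsum hm ha0 hb0 (by linarith) (by linarith)

/-- the window for `t` -/
lemma windowC (N S t : ℤ) (hS0 : 2700 ≤ S) (hS : S ^ 2 ≤ N) (hS' : N < (S + 1) ^ 2)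
    (h1 : 274874 * (S + 1) ≤ 100000 * t) (h2 : 100000 * t ≤ 274874 * (S + 1) + 5000000) :
    68 * N < 9 * t ^ 2 ∧ 9 * t ^ 2 ≤ 69 * N := by
  constructor
  · have h3 : (274874 * (S + 1)) ^ 2 ≤ (100000 * t) ^ 2 := pow_le_pow_left₀ (by linarith) h1 2
    nlinarith
  · have h3 : 100000 * t ≤ 276887 * S := by linarith
    have h4 : 0 ≤ 100000 * t := by linarith
    have h5 : (100000 * t) ^ 2 ≤ (276887 * S) ^ 2 := pow_le_pow_left₀ h4 h3 2
    nlinarith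

theorem caseC (n : ℕ) (hn : 200000 ≤ n) (h3 : n % 3 = 2) : Rep n := by
  obtain ⟨S, hS1, hS2⟩ : ∃ S : ℕ, S * S ≤ 40 * n + 4 ∧ 40 * n + 4 < (S + 1) * (S + 1) :=
    ⟨Nat.sqrt (40 * n + 4), Nat.sqrt_le _, Nat.lt_succ_sqrt _⟩
  have hS0 : 2700 ≤ S := by
    by_contra h
    push Not at h
    have : (S + 1) * (S + 1) ≤ 2700 * 2700 := Nat.mul_le_mul (by omega) (by omega)
    omega
  obtain ⟨m, rfl⟩ : ∃ m, n = 3 * m + 2 := ⟨n / 3, by omega⟩
  -- `t = 8 + 15 n mod 25`, odd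
  obtain ⟨t, ht1, ht2, k, hk⟩ := exists_class (274874 * ((S : ℤ) + 1) / 100000 + 1)
    (8 + 15 * (3 * m + 2) + 25 * (m + 1)) 50 (by norm_num)
  obtain ⟨h4, h5⟩ := windowC (40 * (3 * m + 2) + 4) S t (by exact_mod_cast hS0) (by
    have : ((S * S : ℕ) : ℤ) ≤ ((40 * (3 * m + 2) + 4 : ℕ) : ℤ) := by exact_mod_cast hS1
    push_cast at this; linarith) (by
    have : ((40 * (3 * m + 2) + 4 : ℕ) : ℤ) < (((S + 1) * (S + 1) : ℕ) : ℤ) := by exact_mod_cast hS2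
    push_cast at this; linarith) (by omega) (by omega)
  have ht : t = 63 + 70 * m + 50 * k := by linarith
  have ht0 : 0 < t := by omega
  -- the number which is a sum of three squares
  obtain ⟨D, hD⟩ : ∃ D, 25 * D = 23 * (40 * m + 28) - t ^ 2 := by
    refine ⟨-133 - 316 * m - 252 * k - 196 * m ^ 2 - 280 * m * k - 100 * k ^ 2, ?_⟩
    rw [ht]; ring
  have hto : t % 2 = 1 := by omega
  have ht8 := sq_mod8 t hto
  obtain ⟨x, y, z, hx, hx1, hy1, hz1⟩ := three_odd (D := D) (by nlinarith) (by omega)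
  refine quadC (3 * m + 2) t x y z (40 * m + 28) (by push_cast; ring) ?_ ht0 hto hx1 hy1 hz1 ?_
  · rw [hx]; linarith
  · push_cast; exact h4

end Pool.Agent.J4.H20.PT
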